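import Pool.Agent.Helper52.IA.Log

/-!
# Kernel-evaluable interval arithmetic with logarithms

`Ex` : expressions with integer constants, variables, `+ - * / log`.
`Ex.ev e ρ : ℝ` : value at the real environment `ρ : List ℝ`.
`Ex.iv e env : Option Iv` : enclosing interval (bounds are integers, scaled by `D = 2^56`).
`chk fuel nv e env = true → 0 < e.ev ρ` for every `ρ` in the box `env` (bisection).
-/

namespace IA

/-- interval `[lo/D, hi/D]` -/
structure Iv where
  lo : Int
  hi : Int

/-- membership -/
def Iv.mem (x : ℝ) (I : Iv) : Prop := (I.lo : ℝ) ≤ x * D ∧ x * D ≤ (I.hi : ℝ)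

inductive Ex where
  | c (n : Int)
  | v (i : Nat)
  | add (a b : Ex)
  | sub (a b : Ex)
  | mul (a b : Ex)
  | div (a b : Ex)
  | sq (a : Ex)
  | log (a : Ex)

/-- real value -/
noncomputable def Ex.ev (ρ : List ℝ) : Ex → ℝ
  | .c n => n
  | .v i => ρ.getD i 0
  | .add a b => a.ev ρ + b.ev ρ
  | .sub a b => a.ev ρ - b.ev ρ
  | .mul a b => a.ev ρ * b.ev ρ
  | .div a b => a.ev ρ / b.ev ρ
  | .sq a => a.ev ρ ^ 2
  | .log a => Real.log (a.ev ρ)

/-- floor of `a / D` -/
def fl (a : Int) : Int := a / (D : Int)
/-- ceiling of `a / D` -/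
def ce (a : Int) : Int := -((-a) / (D : Int))

def imul (I J : Iv) : Iv :=
  ⟨fl (min (min (I.lo * J.lo) (I.lo * J.hi)) (min (I.hi * J.lo) (I.hi * J.hi))),
   ce (max (max (I.lo * J.lo) (I.lo * J.hi)) (max (I.hi * J.lo) (I.hi * J.hi)))⟩

/-- inverse of a positive interval -/
def iinvp (I : Iv) : Option Iv :=
  if 0 < I.lo then some ⟨(D : Int) * D / I.hi, -((-((D : Int) * D)) / I.lo)⟩ else none

def ineg (I : Iv) : Iv := ⟨-I.hi, -I.lo⟩

def iinv (I : Iv) : Option Iv :=
  if 0 < I.lo then iinvp I
  else (iinvp (ineg I)).map ineg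

def isq (I : Iv) : Iv :=
  if 0 ≤ I.lo then ⟨fl (I.lo * I.lo), ce (I.hi * I.hi)⟩
  else if I.hi ≤ 0 then ⟨fl (I.hi * I.hi), ce (I.lo * I.lo)⟩
  else ⟨0, ce (max (I.lo * I.lo) (I.hi * I.hi))⟩

def ilog (I : Iv) : Option Iv :=
  if 0 < I.lo then some ⟨logLo I.lo.toNat, logHi I.hi.toNat⟩ else none

def Ex.iv (env : List Iv) : Ex → Option Iv
  | .c n => some ⟨n * D, n * D⟩
  | .v i => env[i]?
  | .add a b => match a.iv env, b.iv env with
    | some I, some J => some ⟨I.lo + J.lo, I.hi + J.hi⟩
    | _, _ => none
  | .sub a b => match a.iv env, b.iv env with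
    | some I, some J => some ⟨I.lo - J.hi, I.hi - J.lo⟩
    | _, _ => none
  | .mul a b => match a.iv env, b.iv env with
    | some I, some J => some (imul I J)
    | _, _ => none
  | .div a b => match a.iv env, b.iv env with
    | some I, some J => (iinv J).map (imul I)
    | _, _ => none
  | .sq a => match a.iv env with
    | some I => some (isq I)
    | none => none
  | .log a => match a.iv env with
    | some I => ilog I
    | none => none

/-! ## correctness -/

theorem Iv.le {x : ℝ} {I : Iv} (h : I.mem x) : I.lo ≤ I.hi := by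
  have := h.1.trans h.2
  exact_mod_cast this

theorem fl_le (a : Int) : ((fl a : Int) : ℝ) ≤ (a : ℝ) / D := by
  unfold fl
  rw [le_div_iff₀ Dr_pos]
  have : a / (D : Int) * D ≤ a := Int.ediv_mul_le _ (by exact_mod_cast D_pos.ne')
  exact_mod_cast this

theorem le_ce (a : Int) : (a : ℝ) / D ≤ ((ce a : Int) : ℝ) := by
  have := fl_le (-a)
  unfold fl at this
  unfold ce
  push_cast at this ⊢
  have e : -(a : ℝ) / D = -((a : ℝ) / D) := by ring
  rw [e] at this
  linarith

theorem corner_lo {a b c d x y : ℝ} (h1 : a ≤ x) (h2 : x ≤ b) (h3 : c ≤ y) (h4 : y ≤ d) :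
    min (min (a * c) (a * d)) (min (b * c) (b * d)) ≤ x * y := by
  rcases le_total 0 y with hy | hy
  · have h5 : a * y ≤ x * y := mul_le_mul_of_nonneg_right h1 hy
    rcases le_total 0 a with ha | ha
    · have : a * c ≤ a * y := mul_le_mul_of_nonneg_left h3 ha
      exact (min_le_left _ _).trans ((min_le_left _ _).trans (this.trans h5))
    · have : a * d ≤ a * y := mul_le_mul_of_nonpos_left h4 ha
      exact (min_le_left _ _).trans ((min_le_right _ _).trans (this.trans h5))
  · have h5 : b * y ≤ x * y := mul_le_mul_of_nonpos_right h2 hy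
    rcases le_total 0 b with hb | hb
    · have : b * c ≤ b * y := mul_le_mul_of_nonneg_left h3 hb
      exact (min_le_right _ _).trans ((min_le_left _ _).trans (this.trans h5))
    · have : b * d ≤ b * y := mul_le_mul_of_nonpos_left h4 hb
      exact (min_le_right _ _).trans ((min_le_right _ _).trans (this.trans h5))

theorem corner_hi {a b c d x y : ℝ} (h1 : a ≤ x) (h2 : x ≤ b) (h3 : c ≤ y) (h4 : y ≤ d) :
    x * y ≤ max (max (a * c) (a * d)) (max (b * c) (b * d)) := by
  rcases le_total 0 y with hy | hy
  · have h5 : x * y ≤ b * y := mul_le_mul_of_nonneg_right h2 hy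
    rcases le_total 0 b with hb | hb
    · have : b * y ≤ b * d := mul_le_mul_of_nonneg_left h4 hb
      exact (h5.trans this).trans ((le_max_right _ _).trans (le_max_right _ _))
    · have : b * y ≤ b * c := mul_le_mul_of_nonpos_left h3 hb
      exact (h5.trans this).trans ((le_max_left _ _).trans (le_max_right _ _))
  · have h5 : x * y ≤ a * y := mul_le_mul_of_nonpos_right h1 hy
    rcases le_total 0 a with ha | ha
    · have : a * y ≤ a * d := mul_le_mul_of_nonneg_left h4 ha
      exact (h5.trans this).trans ((le_max_right _ _).trans (le_max_left _ _))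
    · have : a * y ≤ a * c := mul_le_mul_of_nonpos_left h3 ha
      exact (h5.trans this).trans ((le_max_left _ _).trans (le_max_left _ _))

theorem imul_mem {x y : ℝ} {I J : Iv} (hx : I.mem x) (hy : J.mem y) : (imul I J).mem (x * y) := by
  have hD := Dr_pos
  have e : x * y * D = (x * D) * (y * D) / D := by field_simp
  constructor
  · rw [e]
    refine (fl_le _).trans ?_
    gcongr
    have := corner_lo hx.1 hx.2 hy.1 hy.2
    push_cast
    exact this
  · rw [e]
    refine le_trans ?_ (le_ce _)
    gcongr
    have := corner_hi hx.1 hx.2 hy.1 hy.2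
    push_cast
    exact this

theorem ineg_mem {x : ℝ} {I : Iv} (hx : I.mem x) : (ineg I).mem (-x) := by
  constructor
  · show ((-I.hi : Int) : ℝ) ≤ -x * D
    push_cast
    linarith [hx.2]
  · show -x * D ≤ ((-I.lo : Int) : ℝ)
    push_cast
    linarith [hx.1]

theorem iinvp_mem {x : ℝ} {I K : Iv} (hx : I.mem x) (h : iinvp I = some K) : K.mem (x⁻¹) := by
  have hD := Dr_pos
  unfold iinvp at h
  split_ifs at h with h0
  simp only [Option.some.injEq] at h
  subst h
  have hlo : (0 : ℝ) < I.lo := by exact_mod_cast h0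
  have hxD : 0 < x * D := lt_of_lt_of_le hlo hx.1
  have hhi : (0 : ℝ) < I.hi := lt_of_lt_of_le hxD hx.2
  have hxpos : 0 < x := by
    by_contra hc
    push Not at hc
    nlinarith
  have e : x⁻¹ * D = (D : ℝ) * D / (x * D) := by field_simp
  constructor
  · rw [e]
    have h1 : (((D : Int) * D / I.hi : Int) : ℝ) ≤ (D : ℝ) * D / I.hi := by
      rw [le_div_iff₀ hhi]
      have hhi' : 0 < I.hi := by exact_mod_cast hhi
      have : (D : Int) * D / I.hi * I.hi ≤ (D : Int) * D := Int.ediv_mul_le _ hhi'.ne'
      exact_mod_cast this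
    refine h1.trans ?_
    apply div_le_div_of_nonneg_left (by positivity) hxD hx.2
  · rw [e]
    have h1 : (D : ℝ) * D / I.lo ≤ ((-((-((D : Int) * D)) / I.lo) : Int) : ℝ) := by
      rw [div_le_iff₀ hlo]
      have : (-((D : Int) * D)) / I.lo * I.lo ≤ -((D : Int) * D) := Int.ediv_mul_le _ h0.ne'
      have h2 : (((-((D : Int) * D)) / I.lo : Int) : ℝ) * I.lo ≤ -((D : ℝ) * D) := by exact_mod_cast this
      push_cast at h2 ⊢
      linarith
    refine le_trans ?_ h1
    apply div_le_div_of_nonneg_left (by positivity) hlo hx.1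

theorem iinv_mem {x : ℝ} {I K : Iv} (hx : I.mem x) (h : iinv I = some K) : K.mem (x⁻¹) := by
  unfold iinv at h
  split_ifs at h with h0
  · exact iinvp_mem hx h
  · rw [Option.map_eq_some_iff] at h
    obtain ⟨K', h1, h2⟩ := h
    have := iinvp_mem (ineg_mem hx) h1
    have h3 := ineg_mem this
    rw [h2] at h3
    rwa [inv_neg, neg_neg] at h3

theorem isq_mem {x : ℝ} {I : Iv} (hx : I.mem x) : (isq I).mem (x ^ 2) := by
  have hD := Dr_pos
  have e : x ^ 2 * D = (x * D) * (x * D) / D := by field_simp
  obtain ⟨h1, h2⟩ := hx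
  unfold isq
  split_ifs with ha hb
  · have ha' : (0 : ℝ) ≤ I.lo := by exact_mod_cast ha
    constructor
    · rw [e]
      refine (fl_le _).trans ?_
      gcongr
      push_cast
      nlinarith
    · rw [e]
      refine le_trans ?_ (le_ce _)
      gcongr
      push_cast
      nlinarith
  · have hb' : (I.hi : ℝ) ≤ 0 := by exact_mod_cast hb
    constructor
    · rw [e]
      refine (fl_le _).trans ?_
      gcongr
      push_cast
      nlinarith
    · rw [e]
      refine le_trans ?_ (le_ce _)
      gcongr
      push_cast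
      nlinarith
  · constructor
    · show ((0 : Int) : ℝ) ≤ _
      push_cast
      positivity
    · rw [e]
      refine le_trans ?_ (le_ce _)
      gcongr
      push_cast
      rcases le_total 0 (x * D) with h | h
      · exact le_trans (by nlinarith) (le_max_right _ _)
      · exact le_trans (by nlinarith) (le_max_left _ _)

theorem ilog_mem {x : ℝ} {I K : Iv} (hx : I.mem x) (h : ilog I = some K) : K.mem (Real.log x) := by
  have hD := Dr_pos
  unfold ilog at h
  split_ifs at h with h0
  simp only [Option.some.injEq] at h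
  subst h
  have hlo : (0 : ℝ) < I.lo := by exact_mod_cast h0
  have hxD : 0 < x * D := lt_of_lt_of_le hlo hx.1
  have hhi : (0 : ℝ) < I.hi := lt_of_lt_of_le hxD hx.2
  have hhi' : 0 < I.hi := by exact_mod_cast hhi
  have hxpos : 0 < x := by
    by_contra hc
    push Not at hc
    nlinarith
  have c1 : ((I.lo.toNat : ℕ) : ℝ) = I.lo := by
    have : ((I.lo.toNat : ℕ) : Int) = I.lo := Int.toNat_of_nonneg h0.le
    exact_mod_cast congrArg (Int.cast : Int → ℝ) this
  have c2 : ((I.hi.toNat : ℕ) : ℝ) = I.hi := by
    have : ((I.hi.toNat : ℕ) : Int) = I.hi := Int.toNat_of_nonneg hhi'.le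
    exact_mod_cast congrArg (Int.cast : Int → ℝ) this
  constructor
  · have h1 := logLo_le (n := I.lo.toNat) (by omega)
    rw [c1] at h1
    show ((logLo I.lo.toNat : Int) : ℝ) ≤ Real.log x * D
    refine h1.trans ?_
    rw [mul_comm]
    gcongr
    rw [div_le_iff₀ hD]
    exact hx.1
  · have h1 := le_logHi (n := I.hi.toNat) (by omega)
    rw [c2] at h1
    show Real.log x * D ≤ ((logHi I.hi.toNat : Int) : ℝ)
    refine le_trans ?_ h1
    rw [mul_comm]
    gcongr
    rw [le_div_iff₀ hD]
    exact hx.2

/-- the real environment lies in the box -/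
def InBox (ρ : List ℝ) (env : List Iv) : Prop := List.Forall₂ (fun x I => Iv.mem x I) ρ env

theorem InBox.get {ρ : List ℝ} {env : List Iv} (h : InBox ρ env) {i : ℕ} {I : Iv}
    (hi : env[i]? = some I) : I.mem (ρ.getD i 0) := by
  induction h generalizing i with
  | nil => simp at hi
  | cons h1 h2 ih =>
    cases i with
    | zero =>
      simp only [List.getElem?_cons_zero, Option.some.injEq] at hi
      subst hi
      simpa using h1
    | succ i =>
      simp only [List.getElem?_cons_succ] at hi
      simpa using ih hi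

theorem Ex.iv_sound {ρ : List ℝ} {env : List Iv} (h : InBox ρ env) (e : Ex) :
    ∀ {I : Iv}, e.iv env = some I → I.mem (e.ev ρ) := by
  have hD := Dr_pos
  induction e with
  | c n =>
    intro I hI
    simp only [Ex.iv, Option.some.injEq] at hI
    subst hI
    simp [Iv.mem, Ex.ev]
  | v i =>
    intro I hI
    exact h.get hI
  | add a b iha ihb =>
    intro I hI
    simp only [Ex.iv] at hI
    split at hI
    · rename_i I1 I2 h1 h2
      simp only [Option.some.injEq] at hI
      subst hI
      have e1 := iha h1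
      have e2 := ihb h2
      constructor
      · simp only [Ex.ev]; push_cast; linarith [e1.1, e2.1]
      · simp only [Ex.ev]; push_cast; linarith [e1.2, e2.2]
    · simp at hI
  | sub a b iha ihb =>
    intro I hI
    simp only [Ex.iv] at hI
    split at hI
    · rename_i I1 I2 h1 h2
      simp only [Option.some.injEq] at hI
      subst hI
      have e1 := iha h1
      have e2 := ihb h2
      constructor
      · simp only [Ex.ev]; push_cast; linarith [e1.1, e2.2]
      · simp only [Ex.ev]; push_cast; linarith [e1.2, e2.1]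
    · simp at hI
  | mul a b iha ihb =>
    intro I hI
    simp only [Ex.iv] at hI
    split at hI
    · rename_i I1 I2 h1 h2
      simp only [Option.some.injEq] at hI
      subst hI
      exact imul_mem (iha h1) (ihb h2)
    · simp at hI
  | div a b iha ihb =>
    intro I hI
    simp only [Ex.iv] at hI
    split at hI
    · rename_i I1 I2 h1 h2
      rw [Option.map_eq_some_iff] at hI
      obtain ⟨K, hK, hK2⟩ := hI
      subst hK2
      have := imul_mem (iha h1) (iinv_mem (ihb h2) hK)
      simpa [Ex.ev, div_eq_mul_inv] using this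
    · simp at hI
  | sq a iha =>
    intro I hI
    simp only [Ex.iv] at hI
    split at hI
    · rename_i I1 h1
      simp only [Option.some.injEq] at hI
      subst hI
      exact isq_mem (iha h1)
    · simp at hI
  | log a iha =>
    intro I hI
    simp only [Ex.iv] at hI
    split at hI
    · rename_i I1 h1
      exact ilog_mem (iha h1) hI
    · simp at hI

/-- positivity test on a box -/
def posB (e : Ex) (env : List Iv) : Bool :=
  match e.iv env with
  | some I => decide (0 < I.lo)
  | none => false

theorem posB_sound {ρ : List ℝ} {env : List Iv} (h : InBox ρ env) {e : Ex} (hp : posB e env = true) :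
    0 < e.ev ρ := by
  unfold posB at hp
  split at hp
  · rename_i I hI
    have := e.iv_sound h hI
    have h0 : 0 < I.lo := by simpa using hp
    have h0' : (0 : ℝ) < I.lo := by exact_mod_cast h0
    have h1 : 0 < e.ev ρ * D := lt_of_lt_of_le h0' this.1
    by_contra hc
    push Not at hc
    nlinarith [Dr_pos]
  · simp at hp

/-- replace the `i`-th interval -/
def setI : List Iv → ℕ → Iv → List Iv
  | [], _, _ => []
  | _ :: l, 0, J => J :: l
  | I :: l, i + 1, J => I :: setI l i J

theorem InBox.set {ρ : List ℝ} {env : List Iv} (h : InBox ρ env) (i : ℕ) (J : Iv)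
    (hJ : J.mem (ρ.getD i 0)) : InBox ρ (setI env i J) := by
  induction h generalizing i with
  | nil => simp [setI, InBox]
  | cons h1 h2 ih =>
    cases i with
    | zero => exact List.Forall₂.cons (by simpa using hJ) h2
    | succ i => exact List.Forall₂.cons h1 (ih i (by simpa using hJ))

/-- bisection, cycling through the first `nv` variables -/
def chk : ℕ → ℕ → ℕ → Ex → List Iv → Bool
  | 0, _, _, e, env => posB e env
  | n + 1, nv, j, e, env =>
    posB e env ||
      match env[j]? with
      | some I =>
        let mid := (I.lo + I.hi) / 2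
        let j' := if j + 1 < nv then j + 1 else 0
        chk n nv j' e (setI env j ⟨I.lo, mid⟩) && chk n nv j' e (setI env j ⟨mid, I.hi⟩)
      | none => false

theorem chk_sound (n nv : ℕ) (e : Ex) : ∀ (j : ℕ) {ρ : List ℝ} {env : List Iv}, InBox ρ env →
    chk n nv j e env = true → 0 < e.ev ρ := by
  induction n with
  | zero => intro j ρ env h hc; exact posB_sound h hc
  | succ n ih =>
    intro j ρ env h hc
    simp only [chk, Bool.or_eq_true] at hc
    rcases hc with hc | hc
    · exact posB_sound h hc
    · split at hc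
      · rename_i I hI
        simp only [Bool.and_eq_true] at hc
        have hm := h.get hI
        rcases le_total (ρ.getD j 0 * D) (((I.lo + I.hi) / 2 : Int) : ℝ) with h1 | h1
        · exact ih _ (h.set j ⟨I.lo, (I.lo + I.hi) / 2⟩ ⟨hm.1, h1⟩) hc.1
        · exact ih _ (h.set j ⟨(I.lo + I.hi) / 2, I.hi⟩ ⟨h1, hm.2⟩) hc.2
      · simp at hc

/-- rational interval `[a/b, c/d]`, rounded outwards -/
def rat (a : Int) (b : ℕ) (c : Int) (d : ℕ) : Iv := ⟨(a * D) / b, -((-(c * D)) / d)⟩

theorem rat_mem {a c : Int} {b d : ℕ} {x : ℝ} (hb : 0 < b) (hd : 0 < d) (h1 : (a : ℝ) / b ≤ x)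
    (h2 : x ≤ (c : ℝ) / d) : (rat a b c d).mem x := by
  have hD := Dr_pos
  have hb' : (0 : ℝ) < b := by exact_mod_cast hb
  have hd' : (0 : ℝ) < d := by exact_mod_cast hd
  constructor
  · have : (((a * D) / b : Int) : ℝ) ≤ (a : ℝ) * D / b := by
      rw [le_div_iff₀ hb']
      have : (a * D) / (b : Int) * b ≤ a * D := Int.ediv_mul_le _ (by exact_mod_cast hb.ne')
      exact_mod_cast this
    refine this.trans ?_
    calc (a : ℝ) * D / b = (a : ℝ) / b * D := by ring
      _ ≤ x * D := by gcongr
  · have : (c : ℝ) * D / d ≤ ((-((-(c * D)) / (d : Int)) : Int) : ℝ) := by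
      rw [div_le_iff₀ hd']
      have : (-(c * D)) / (d : Int) * d ≤ -(c * D) := Int.ediv_mul_le _ (by exact_mod_cast hd.ne')
      have h3 : (((-(c * D)) / (d : Int) : Int) : ℝ) * d ≤ -((c : ℝ) * D) := by exact_mod_cast this
      push_cast at h3 ⊢
      linarith
    refine le_trans ?_ this
    calc x * D ≤ (c : ℝ) / d * D := by gcongr
      _ = (c : ℝ) * D / d := by ring

end IA
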