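import Mathlib

/-!
# Fixed point bounds for the logarithm, evaluable in the kernel
A natural number `n` stands for the real `n / D`, `D = 2^56`.
-/

open Finset

namespace IA

/-- scale -/
def D : ℕ := 72057594037927936

theorem D_eq : D = 2 ^ 56 := by norm_num [D]
theorem D_pos : 0 < D := by norm_num [D]
theorem Dr_pos : (0 : ℝ) < D := by exact_mod_cast D_pos

attribute [irreducible] D

/-- partial sums of `∑ z^(2j+1)/(2j+1)`, from below -/
def serLo : ℕ → ℕ → ℕ → ℕ → ℕ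
  | 0, _, _, _ => 0
  | n + 1, j, term, zz => term / (2 * j + 1) + serLo n (j + 1) (term * zz / D) zz

/-- partial sums plus tail, from above (needs `z² ≤ 1/2`) -/
def serHi : ℕ → ℕ → ℕ → ℕ → ℕ
  | 0, _, term, _ => 2 * term
  | n + 1, j, term, zz => (term / (2 * j + 1) + 1) + serHi n (j + 1) (term * zz / D + 1) zz

/-- lower bound for `log (y/D)`, `D ≤ y` -/
def logLo1 (y : ℕ) : ℕ :=
  2 * serLo 18 0 ((y - D) * D / (y + D)) (((y - D) * D / (y + D)) * ((y - D) * D / (y + D)) / D)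

/-- upper bound for `log (y/D)`, `D ≤ y ≤ 3D` -/
def logHi1 (y : ℕ) : ℕ :=
  2 * serHi 18 0 ((y - D) * D / (y + D) + 1)
    (((y - D) * D / (y + D) + 1) * ((y - D) * D / (y + D) + 1) / D + 1)

def l2lo : ℕ := 49946518145322856
def l2hi : ℕ := 49946518145322902

/-- lower bound of `D * log (n/D)`, `n > 0` -/
def logLo (n : ℕ) : ℤ :=
  if 56 ≤ Nat.log2 n then (((Nat.log2 n - 56) * l2lo + logLo1 (n * D / 2 ^ Nat.log2 n) : ℕ) : ℤ)
  else (logLo1 (n * D / 2 ^ Nat.log2 n) : ℤ) - (((56 - Nat.log2 n) * l2hi : ℕ) : ℤ)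

/-- upper bound of `D * log (n/D)`, `n > 0` -/
def logHi (n : ℕ) : ℤ :=
  if 56 ≤ Nat.log2 n then (((Nat.log2 n - 56) * l2hi + logHi1 (n * D / 2 ^ Nat.log2 n + 1) : ℕ) : ℤ)
  else (logHi1 (n * D / 2 ^ Nat.log2 n + 1) : ℤ) - (((56 - Nat.log2 n) * l2lo : ℕ) : ℤ)

/-! ## the series -/

/-- real partial sums -/
noncomputable def S (n j : ℕ) (z : ℝ) : ℝ := ∑ i ∈ range n, z ^ (2 * (j + i) + 1) / (2 * (j + i) + 1)

theorem S_succ (n j : ℕ) (z : ℝ) : S (n + 1) j z = z ^ (2 * j + 1) / (2 * j + 1) + S n (j + 1) z := by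
  unfold S
  rw [sum_range_succ']
  simp only [Nat.cast_zero, add_zero]
  rw [add_comm]
  congr 1
  apply sum_congr rfl
  intro i _
  push_cast
  congr 1
  · congr 1; ring
  · ring

theorem nat_div_le (a b : ℕ) : ((a / b : ℕ) : ℝ) ≤ (a : ℝ) / b := Nat.cast_div_le

theorem le_nat_div_add_one (a b : ℕ) (hb : 0 < b) : (a : ℝ) / b ≤ ((a / b + 1 : ℕ) : ℝ) := by
  have hb' : (0 : ℝ) < b := by exact_mod_cast hb
  rw [div_le_iff₀ hb']
  have := Nat.lt_div_mul_add hb (a := a)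
  have h : (a : ℝ) ≤ ((a / b : ℕ) : ℝ) * b + b := by
    have : a < a / b * b + b := this
    exact_mod_cast this.le
  push_cast
  linarith

theorem serLo_le (n : ℕ) : ∀ (j term zz : ℕ) (z : ℝ), 0 ≤ z → (term : ℝ) ≤ z ^ (2 * j + 1) * D →
    (zz : ℝ) ≤ z ^ 2 * D → (serLo n j term zz : ℝ) ≤ S n j z * D := by
  induction n with
  | zero => intro j term zz z _ _ _; simp [serLo, S]
  | succ n ih =>
    intro j term zz z hz ht hzz
    rw [S_succ, serLo]
    push_cast
    have h1 : ((term / (2 * j + 1) : ℕ) : ℝ) ≤ z ^ (2 * j + 1) / (2 * j + 1) * D := by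
      refine (nat_div_le _ _).trans ?_
      push_cast
      rw [div_mul_eq_mul_div]
      gcongr
    have h2 : ((term * zz / D : ℕ) : ℝ) ≤ z ^ (2 * (j + 1) + 1) * D := by
      refine (nat_div_le _ _).trans ?_
      push_cast
      rw [div_le_iff₀ Dr_pos]
      calc (term : ℝ) * zz ≤ (z ^ (2 * j + 1) * D) * (z ^ 2 * D) := by
            gcongr
        _ = z ^ (2 * (j + 1) + 1) * D * D := by ring
    have h3 := ih (j + 1) (term * zz / D) zz z hz h2 hzz
    linarith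

theorem serHi_ge (n : ℕ) : ∀ (j term zz : ℕ) (z : ℝ), 0 ≤ z → z ^ (2 * j + 1) * D ≤ (term : ℝ) →
    z ^ 2 * D ≤ (zz : ℝ) → (S n j z + 2 * z ^ (2 * (j + n) + 1)) * D ≤ (serHi n j term zz : ℝ) := by
  induction n with
  | zero =>
    intro j term zz z _ ht _
    simp only [S, range_zero, sum_empty, zero_add, serHi, add_zero]
    push_cast
    linarith
  | succ n ih =>
    intro j term zz z hz ht hzz
    rw [S_succ, serHi]
    push_cast
    have h1 : z ^ (2 * j + 1) / (2 * j + 1) * D ≤ ((term / (2 * j + 1) : ℕ) : ℝ) + 1 := by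
      have := le_nat_div_add_one term (2 * j + 1) (by omega)
      push_cast at this
      refine le_trans ?_ this
      rw [div_mul_eq_mul_div]
      gcongr
    have h2 : z ^ (2 * (j + 1) + 1) * D ≤ ((term * zz / D + 1 : ℕ) : ℝ) := by
      refine le_trans ?_ (le_nat_div_add_one _ _ D_pos)
      push_cast
      rw [le_div_iff₀ Dr_pos]
      calc z ^ (2 * (j + 1) + 1) * D * D = (z ^ (2 * j + 1) * D) * (z ^ 2 * D) := by ring
        _ ≤ (term : ℝ) * zz := by
            have : 0 ≤ z ^ 2 * (D : ℝ) := by positivity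
            gcongr
    have h3 := ih (j + 1) (term * zz / D + 1) zz z hz h2 hzz
    have e : 2 * (j + (n + 1)) + 1 = 2 * (j + 1 + n) + 1 := by ring
    rw [e]
    linarith

theorem log_eq_tsum {z : ℝ} (h : |z| < 1) :
    HasSum (fun k : ℕ => 2 * (z ^ (2 * k + 1) / (2 * k + 1))) (Real.log ((1 + z) / (1 - z))) := by
  have := Real.hasSum_log_sub_log_of_abs_lt_one h
  rw [← Real.log_div (by linarith [(abs_lt.1 h).1]) (by linarith [(abs_lt.1 h).2])] at this
  convert this using 2 with k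
  ring

theorem log_lower {z : ℝ} (hz : 0 ≤ z) (h : z < 1) (n : ℕ) :
    2 * S n 0 z ≤ Real.log ((1 + z) / (1 - z)) := by
  have hs := log_eq_tsum (z := z) (by rw [abs_of_nonneg hz]; exact h)
  have : ∑ k ∈ range n, 2 * (z ^ (2 * k + 1) / (2 * k + 1 : ℝ)) ≤ Real.log ((1 + z) / (1 - z)) := by
    apply sum_le_hasSum _ _ hs
    intro i _
    positivity
  refine le_trans (le_of_eq ?_) this
  rw [← mul_sum]
  unfold S
  simp

theorem log_upper {z : ℝ} (hz : 0 ≤ z) (h : z ^ 2 ≤ 1 / 2) (n : ℕ) :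
    Real.log ((1 + z) / (1 - z)) ≤ 2 * (S n 0 z + 2 * z ^ (2 * n + 1)) := by
  have hz1 : z < 1 := by nlinarith
  have hs := log_eq_tsum (z := z) (by rw [abs_of_nonneg hz]; exact hz1)
  have hs2 := (hasSum_nat_add_iff' n).2 hs
  have hg : HasSum (fun k : ℕ => 2 * z ^ (2 * n + 1) * (1 / 2 : ℝ) ^ k) (2 * z ^ (2 * n + 1) * 2) := by
    have := (hasSum_geometric_two).mul_left (2 * z ^ (2 * n + 1))
    exact this
  have hle : ∀ k : ℕ, 2 * (z ^ (2 * (k + n) + 1) / (2 * ((k + n : ℕ) : ℝ) + 1)) ≤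
      2 * z ^ (2 * n + 1) * (1 / 2 : ℝ) ^ k := by
    intro k
    have h1 : z ^ (2 * (k + n) + 1) / (2 * ((k + n : ℕ) : ℝ) + 1) ≤ z ^ (2 * (k + n) + 1) := by
      apply div_le_self (by positivity)
      have : (0 : ℝ) ≤ ((k + n : ℕ) : ℝ) := by positivity
      linarith
    have h2 : z ^ (2 * (k + n) + 1) = z ^ (2 * n + 1) * (z ^ 2) ^ k := by
      rw [← pow_mul, ← pow_add]; congr 1; ring
    have h3 : (z ^ 2) ^ k ≤ (1 / 2 : ℝ) ^ k := pow_le_pow_left₀ (by positivity) h k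
    have h4 : 0 ≤ z ^ (2 * n + 1) := by positivity
    rw [h2] at h1 ⊢
    nlinarith [mul_le_mul_of_nonneg_left h3 h4]
  have := hasSum_le hle hs2 hg
  have e : ∑ k ∈ range n, 2 * (z ^ (2 * k + 1) / (2 * k + 1 : ℝ)) = 2 * S n 0 z := by
    rw [← mul_sum]; unfold S; simp
  rw [e] at this
  linarith

theorem ratio_eq {y : ℝ} (hy : 1 ≤ y) : (1 + (y - 1) / (y + 1)) / (1 - (y - 1) / (y + 1)) = y := by
  have : y + 1 ≠ 0 := by linarith
  field_simp
  ring

theorem logLo1_le {y : ℕ} (hy : D ≤ y) : (logLo1 y : ℝ) ≤ D * Real.log (y / D) := by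
  have hD := Dr_pos
  have hy' : (D : ℝ) ≤ y := by exact_mod_cast hy
  set Y : ℝ := y / D with hY
  have hY1 : 1 ≤ Y := by rw [hY, le_div_iff₀ hD]; linarith
  have hz0 : 0 ≤ (Y - 1) / (Y + 1) := div_nonneg (by linarith) (by linarith)
  have hz1 : (Y - 1) / (Y + 1) < 1 := by rw [div_lt_one (by linarith)]; linarith
  have hzz : (((y - D) * D / (y + D) : ℕ) : ℝ) ≤ (Y - 1) / (Y + 1) * D := by
    refine (nat_div_le _ _).trans (le_of_eq ?_)
    rw [hY]
    push_cast [Nat.cast_sub hy]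
    field_simp
  have h := serLo_le 18 0 ((y - D) * D / (y + D)) (((y - D) * D / (y + D)) * ((y - D) * D / (y + D)) / D)
    ((Y - 1) / (Y + 1)) hz0 (by simpa using hzz) (by
      refine (nat_div_le _ _).trans ?_
      rw [div_le_iff₀ hD]
      push_cast
      have h0 : (0 : ℝ) ≤ (((y - D) * D / (y + D) : ℕ) : ℝ) := by positivity
      nlinarith [mul_le_mul hzz hzz h0 (by positivity)])
  have h2 := log_lower hz0 hz1 18
  rw [ratio_eq hY1] at h2
  unfold logLo1
  push_cast at h ⊢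
  nlinarith

theorem logHi1_ge {y : ℕ} (hy : D ≤ y) (hy2 : y ≤ 3 * D) : D * Real.log (y / D) ≤ (logHi1 y : ℝ) := by
  have hD := Dr_pos
  have hy' : (D : ℝ) ≤ y := by exact_mod_cast hy
  have hy2' : (y : ℝ) ≤ 3 * D := by exact_mod_cast hy2
  set Y : ℝ := y / D with hY
  have hY1 : 1 ≤ Y := by rw [hY, le_div_iff₀ hD]; linarith
  have hY3 : Y ≤ 3 := by rw [hY, div_le_iff₀ hD]; linarith
  have hz0 : 0 ≤ (Y - 1) / (Y + 1) := div_nonneg (by linarith) (by linarith)
  have hz1 : (Y - 1) / (Y + 1) ≤ 1 / 2 := by rw [div_le_div_iff₀ (by linarith) (by norm_num)]; linarith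
  have hzz : (Y - 1) / (Y + 1) * D ≤ (((y - D) * D / (y + D) + 1 : ℕ) : ℝ) := by
    refine le_trans (le_of_eq ?_) (le_nat_div_add_one _ _ (by have := D_pos; omega))
    rw [hY]
    push_cast [Nat.cast_sub hy]
    field_simp
  have h := serHi_ge 18 0 ((y - D) * D / (y + D) + 1)
    (((y - D) * D / (y + D) + 1) * ((y - D) * D / (y + D) + 1) / D + 1)
    ((Y - 1) / (Y + 1)) hz0 (by simpa using hzz) (by
      refine le_trans ?_ (le_nat_div_add_one _ _ D_pos)
      rw [le_div_iff₀ hD]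
      push_cast at hzz ⊢
      have h0 : (0 : ℝ) ≤ (Y - 1) / (Y + 1) * D := by positivity
      nlinarith [mul_le_mul hzz hzz h0 (by positivity)])
  have h2 := log_upper hz0 (by nlinarith) 18
  rw [ratio_eq hY1] at h2
  unfold logHi1
  push_cast at h ⊢
  nlinarith

theorem l2lo_le : (l2lo : ℝ) ≤ D * Real.log 2 := by
  have h := logLo1_le (y := 2 * D) (by have := D_pos; omega)
  have e : logLo1 (2 * D) = l2lo := by decide +kernel
  rw [e] at h
  have : ((2 * D : ℕ) : ℝ) / D = 2 := by have := Dr_pos; push_cast; field_simp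
  rwa [this] at h

theorem l2hi_ge : D * Real.log 2 ≤ (l2hi : ℝ) := by
  have h := logHi1_ge (y := 2 * D) (by have := D_pos; omega) (by have := D_pos; omega)
  have e : logHi1 (2 * D) = l2hi := by decide +kernel
  rw [e] at h
  have : ((2 * D : ℕ) : ℝ) / D = 2 := by have := Dr_pos; push_cast; field_simp
  rwa [this] at h

theorem log_split {n : ℕ} (hn : 0 < n) :
    D * Real.log (n / D) = D * Real.log (((n : ℝ) * D / 2 ^ Nat.log2 n) / D)
      + ((Nat.log2 n : ℝ) - 56) * (D * Real.log 2) := by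
  have hD := Dr_pos
  have hn' : (0 : ℝ) < n := by exact_mod_cast hn
  have e1 : ((n : ℝ) * D / 2 ^ Nat.log2 n) / D = n / 2 ^ Nat.log2 n := by field_simp
  rw [e1, Real.log_div hn'.ne' hD.ne', Real.log_div hn'.ne' (by positivity), Real.log_pow]
  have e2 : Real.log (D : ℝ) = 56 * Real.log 2 := by
    have : (D : ℝ) = (2 : ℝ) ^ 56 := by rw [D_eq]; norm_cast
    rw [this, Real.log_pow]; norm_num
  rw [e2]
  ring

attribute [irreducible] l2lo l2hi logLo1 logHi1

theorem logLo_le {n : ℕ} (hn : 0 < n) : ((logLo n : ℤ) : ℝ) ≤ D * Real.log (n / D) := by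
  have hD := Dr_pos
  have hpow : (0 : ℝ) < 2 ^ Nat.log2 n := by positivity
  have h1 : 2 ^ Nat.log2 n ≤ n := Nat.log2_self_le hn.ne'
  have hyD : D ≤ n * D / 2 ^ Nat.log2 n := by
    rw [Nat.le_div_iff_mul_le (by positivity)]
    rw [mul_comm]
    exact Nat.mul_le_mul_right _ h1
  have h3 := logLo1_le hyD
  have h4 : Real.log (((n * D / 2 ^ Nat.log2 n : ℕ) : ℝ) / D) ≤
      Real.log (((n : ℝ) * D / 2 ^ Nat.log2 n) / D) := by
    apply Real.log_le_log
    · apply div_pos _ hD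
      have : 0 < n * D / 2 ^ Nat.log2 n := lt_of_lt_of_le D_pos hyD
      exact_mod_cast this
    · gcongr
      have := nat_div_le (n * D) (2 ^ Nat.log2 n)
      push_cast at this
      exact this
  rw [log_split hn]
  have h5 := l2lo_le
  have h6 := l2hi_ge
  have h7 : (logLo1 (n * D / 2 ^ Nat.log2 n) : ℝ) ≤
      D * Real.log (((n : ℝ) * D / 2 ^ Nat.log2 n) / D) := h3.trans (by gcongr)
  unfold logLo
  split_ifs with h
  · have h8 : ((Nat.log2 n - 56 : ℕ) : ℝ) = (Nat.log2 n : ℝ) - 56 := by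
      rw [Nat.cast_sub h]; norm_num
    have h9 : (0 : ℝ) ≤ (Nat.log2 n : ℝ) - 56 := by rw [← h8]; exact Nat.cast_nonneg _
    have h10 := mul_le_mul_of_nonneg_left h5 h9
    rw [Int.cast_natCast, Nat.cast_add, Nat.cast_mul, h8]
    linarith
  · have h' : Nat.log2 n ≤ 56 := by omega
    have h8 : ((56 - Nat.log2 n : ℕ) : ℝ) = 56 - (Nat.log2 n : ℝ) := by
      rw [Nat.cast_sub h']; norm_num
    have h9 : (0 : ℝ) ≤ 56 - (Nat.log2 n : ℝ) := by rw [← h8]; exact Nat.cast_nonneg _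
    have h10 := mul_le_mul_of_nonneg_left h6 h9
    rw [Int.cast_sub, Int.cast_natCast, Int.cast_natCast, Nat.cast_mul, h8]
    linarith

theorem comb_hi {e : ℕ} {A B : ℝ} {x l1 l2 : ℕ} (h1 : A ≤ x) (h2 : (l1 : ℝ) ≤ B) (h3 : B ≤ (l2 : ℝ)) :
    A + ((e : ℝ) - 56) * B ≤ (((if 56 ≤ e then (((e - 56) * l2 + x : ℕ) : ℤ)
      else (x : ℤ) - (((56 - e) * l1 : ℕ) : ℤ) : ℤ)) : ℝ) := by
  split_ifs with h
  · have h8 : ((e - 56 : ℕ) : ℝ) = (e : ℝ) - 56 := by
      rw [Nat.cast_sub h]; norm_num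
    have h9 : (0 : ℝ) ≤ (e : ℝ) - 56 := by rw [← h8]; exact Nat.cast_nonneg _
    have h10 := mul_le_mul_of_nonneg_left h3 h9
    rw [Int.cast_natCast, Nat.cast_add, Nat.cast_mul, h8]
    linarith
  · have h' : e ≤ 56 := by omega
    have h8 : ((56 - e : ℕ) : ℝ) = 56 - (e : ℝ) := by
      rw [Nat.cast_sub h']; norm_num
    have h9 : (0 : ℝ) ≤ 56 - (e : ℝ) := by rw [← h8]; exact Nat.cast_nonneg _
    have h10 := mul_le_mul_of_nonneg_left h2 h9
    rw [Int.cast_sub, Int.cast_natCast, Int.cast_natCast, Nat.cast_mul, h8]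
    linarith

theorem le_logHi {n : ℕ} (hn : 0 < n) : D * Real.log (n / D) ≤ ((logHi n : ℤ) : ℝ) := by
  have hD := Dr_pos
  have hpow : (0 : ℝ) < 2 ^ Nat.log2 n := by positivity
  have h1 : 2 ^ Nat.log2 n ≤ n := Nat.log2_self_le hn.ne'
  have h2 : n < 2 ^ (Nat.log2 n + 1) := Nat.lt_log2_self
  have hyD : D ≤ n * D / 2 ^ Nat.log2 n := by
    rw [Nat.le_div_iff_mul_le (by positivity)]
    rw [mul_comm]
    exact Nat.mul_le_mul_right _ h1
  have hy2 : n * D / 2 ^ Nat.log2 n + 1 ≤ 3 * D := by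
    have : n * D / 2 ^ Nat.log2 n < 2 * D := by
      rw [Nat.div_lt_iff_lt_mul (by positivity)]
      calc n * D < 2 ^ (Nat.log2 n + 1) * D := Nat.mul_lt_mul_of_pos_right h2 D_pos
        _ = 2 * D * 2 ^ Nat.log2 n := by ring
    have := D_pos
    omega
  have h3 := logHi1_ge (y := n * D / 2 ^ Nat.log2 n + 1) (by omega) hy2
  have hn' : (0 : ℝ) < n := by exact_mod_cast hn
  have h4 : Real.log (((n : ℝ) * D / 2 ^ Nat.log2 n) / D) ≤
      Real.log (((n * D / 2 ^ Nat.log2 n + 1 : ℕ) : ℝ) / D) := by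
    apply Real.log_le_log
    · positivity
    · gcongr
      have := le_nat_div_add_one (n * D) (2 ^ Nat.log2 n) (by positivity)
      push_cast at this ⊢
      exact this
  rw [log_split hn]
  have h5 := l2lo_le
  have h6 := l2hi_ge
  have h7 : D * Real.log (((n : ℝ) * D / 2 ^ Nat.log2 n) / D) ≤
      (logHi1 (n * D / 2 ^ Nat.log2 n + 1) : ℝ) := le_trans (mul_le_mul_of_nonneg_left h4 hD.le) h3
  unfold logHi
  exact comb_hi h7 h5 h6

end IA
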